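import Pool.Agent.Y942.LY.Main
import Pool.Agent.Y942.LY.BR
import Pool.Agent.Results.MP_24331d_lc.SixNotWeaklyRep

/-!
# The weakly representable Lyndon algebras L(m,0)

For every `m ≥ 3` the algebra `L(m,0)` is weakly representable if and only if there is an affine plane
of order `m`; so weak representability and representability coincide for these algebras.

The algebra `L(m,0)` is given as the algebra of all sets of atoms, the atoms being `1'` (here `none`)
and `a_0, …, a_m` (here `some i`, `i : Fin (m + 1)`).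
-/

set_option autoImplicit false

namespace Pool.Agent.Results.MP_24331d_lc.AffinePlaneCriterion

universe u

/-- The atoms of `L(m,0)`: `none` is the identity atom `1'` and `some i` is the diversity atom `a_i`. -/
abbrev Atom (m : ℕ) : Type := Option (Fin (m + 1))

/-- The atom table of `L(m,0)`: `AtomComp a b c` says that the atom `c` lies below `a ; b`.
It is given by `1' ; b = b`, `a ; 1' = a`, `a_i ; a_i = 1' + a_i` and, for `i ≠ j`,
`a_i ; a_j =` the sum of all diversity atoms different from `a_i` and `a_j`. -/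
def AtomComp {m : ℕ} : Atom m → Atom m → Atom m → Prop
  | none, b, c => c = b
  | some i, none, c => c = some i
  | some i, some j, c =>
    if i = j then (c = none ∨ c = some i) else (c ≠ none ∧ c ≠ some i ∧ c ≠ some j)

/-- The elements of the algebra `L(m,0)` are the sets of atoms, with the Boolean operations of sets;
the product `S ; T` is extended from the atoms by additivity. -/
def comp {m : ℕ} (S T : Set (Atom m)) : Set (Atom m) :=
  {c | ∃ a ∈ S, ∃ b ∈ T, AtomComp a b c}

/-- The converse operation of `L(m,0)`: the algebra is symmetric, so it is the identity map. -/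
def conv {m : ℕ} (S : Set (Atom m)) : Set (Atom m) := S

/-- `θ` is a weak representation of `L(m,0)` over `D`: an injective map into the binary relations on `D`
which sends `0`, `1`, `·`, `1'`, converse and `;` to the empty relation, `D × D`, intersection, the
identity relation, relational inverse and relational composition. -/
structure IsWeakRep (m : ℕ) (D : Type u) (θ : Set (Atom m) → Set (D × D)) : Prop where
  inj : Function.Injective θ
  zero : θ ∅ = ∅
  one : θ Set.univ = Set.univ
  inter : ∀ S T : Set (Atom m), θ (S ∩ T) = θ S ∩ θ T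
  ident : θ {none} = {p | p.1 = p.2}
  conv : ∀ S : Set (Atom m), θ (conv S) = {p | (p.2, p.1) ∈ θ S}
  comp : ∀ S T : Set (Atom m), θ (comp S T) = {p | ∃ y : D, (p.1, y) ∈ θ S ∧ (y, p.2) ∈ θ T}

/-- `θ` is a representation of `L(m,0)` over `D`: a weak representation which also sends union to union
and complement to complement. -/
structure IsRep (m : ℕ) (D : Type u) (θ : Set (Atom m) → Set (D × D)) : Prop
    extends IsWeakRep m D θ where
  union : ∀ S T : Set (Atom m), θ (S ∪ T) = θ S ∪ θ T
  compl : ∀ S : Set (Atom m), θ Sᶜ = (θ S)ᶜ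

/-- `L(m,0)` has a weak representation over some nonempty set (of the universe `u`). -/
def WeaklyRepresentable (m : ℕ) : Prop :=
  ∃ (D : Type u) (_ : Nonempty D) (θ : Set (Atom m) → Set (D × D)), IsWeakRep m D θ

/-- `L(m,0)` has a representation over some nonempty set (of the universe `u`). -/
def Representable (m : ℕ) : Prop :=
  ∃ (D : Type u) (_ : Nonempty D) (θ : Set (Atom m) → Set (D × D)), IsRep m D θ

/-- `L` is the set of lines of an affine plane of order `m` with set of points `P`: there are `m²`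
points, every line has `m` points, two distinct points lie on exactly one line, and through a point off
a line there is exactly one line disjoint from it. -/
structure IsAffinePlane (m : ℕ) (P : Type) (L : Set (Set P)) : Prop where
  points : Nat.card P = m ^ 2
  lines : ∀ l ∈ L, l.ncard = m
  join : ∀ p q : P, p ≠ q → ∃! l, l ∈ L ∧ p ∈ l ∧ q ∈ l
  parallel : ∀ l ∈ L, ∀ p : P, p ∉ l → ∃! k, k ∈ L ∧ p ∈ k ∧ Disjoint k l

/-! ### Proof -/

section Proof

open Pool.Agent.Y942.LY Pool.Agent.W213.Ly.Gen

theorem plane_iff' {m : ℕ} (hm : 2 ≤ m) :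
    (∃ (P : Type) (L : Set (Set P)), IsAffinePlane m P L) ↔ CC m := by
  rw [← plane_iff hm]
  constructor
  · rintro ⟨P, L, h⟩
    exact ⟨P, L, h.points, h.lines, h.join, h.parallel⟩
  · rintro ⟨P, L, h⟩
    exact ⟨P, L, h.points, h.lines, h.join, h.parallel⟩

theorem ac_iff {m : ℕ} (a b c : Atom m) : AtomComp a b c ↔ AC a b c := by
  rcases a with _ | i <;> rcases b with _ | j <;> exact Iff.rfl

theorem comp_eq {m : ℕ} (S T : Set (Atom m)) : comp S T = cmpS S T := by
  ext c
  simp only [comp, cmpS, ac_iff]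

/-- terms for the points of a countable weak subrepresentation -/
inductive Tm (m : ℕ) : Type
  | base (S T : Set (Atom m)) (b : Bool) : Tm m
  | wit (S T : Set (Atom m)) (x z : Tm m) : Tm m

theorem lower {m : ℕ} {D : Type u} [Nonempty D] {θ : Set (Atom m) → Set (D × D)}
    (h : IsWeakRep m D θ) :
    ∃ (E : Type) (_ : Nonempty E) (θ' : Set (Atom m) → Set (E × E)), IsWeakRep m E θ' := by
  classical
  obtain ⟨o⟩ := ‹Nonempty D›
  have hb : ∀ S T : Set (Atom m), ∃ p : D × D, S ≠ T → ¬ (p ∈ θ S ↔ p ∈ θ T) := by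
    intro S T
    by_cases hST : S = T
    · exact ⟨(o, o), fun h => absurd hST h⟩
    · by_contra hcon
      push Not at hcon
      refine hST (h.inj ?_)
      ext p
      exact (hcon p).2
  have hw : ∀ (S T : Set (Atom m)) (x z : D), ∃ y, (x, z) ∈ θ (comp S T) →
      (x, y) ∈ θ S ∧ (y, z) ∈ θ T := by
    intro S T x z
    by_cases hxz : (x, z) ∈ θ (comp S T)
    · have h1 := hxz
      rw [h.comp] at h1
      obtain ⟨y, hy⟩ := h1
      exact ⟨y, fun _ => hy⟩
    · exact ⟨o, fun h1 => absurd h1 hxz⟩
  choose bp hbp using hb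
  choose w hw using hw
  let ev : Tm m → D := fun t =>
    Tm.rec (fun S T b => cond b (bp S T).1 (bp S T).2) (fun S T _ _ x z => w S T x z) t
  let evq : Quotient (Setoid.ker ev) → D := Quotient.lift ev (fun _ _ h => h)
  have hinj : Function.Injective evq := by
    intro a b hab
    induction a using Quotient.inductionOn with
    | h s =>
      induction b using Quotient.inductionOn with
      | h t => exact Quotient.sound hab
  refine ⟨Quotient (Setoid.ker ev), ⟨Quotient.mk _ (Tm.base ∅ ∅ true)⟩,
    fun S => {p | (evq p.1, evq p.2) ∈ θ S}, ?_⟩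
  refine ⟨?_, ?_, ?_, ?_, ?_, ?_, ?_⟩
  · intro S T hST
    by_contra hne
    apply hbp S T hne
    have h1 : (Quotient.mk (Setoid.ker ev) (Tm.base S T true),
        Quotient.mk (Setoid.ker ev) (Tm.base S T false)) ∈
          {p : Quotient (Setoid.ker ev) × Quotient (Setoid.ker ev) | (evq p.1, evq p.2) ∈ θ S} ↔
        (Quotient.mk (Setoid.ker ev) (Tm.base S T true),
        Quotient.mk (Setoid.ker ev) (Tm.base S T false)) ∈
          {p : Quotient (Setoid.ker ev) × Quotient (Setoid.ker ev) | (evq p.1, evq p.2) ∈ θ T} := by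
      have h2 : {p : Quotient (Setoid.ker ev) × Quotient (Setoid.ker ev) |
          (evq p.1, evq p.2) ∈ θ S} = {p | (evq p.1, evq p.2) ∈ θ T} := hST
      rw [h2]
    exact h1
  · ext p
    simp [h.zero]
  · ext p
    simp [h.one]
  · intro S T
    ext p
    simp [h.inter]
  · ext ⟨a, b⟩
    simp only [h.ident, Set.mem_ofPred_eq]
    exact hinj.eq_iff
  · intro S
    ext ⟨a, b⟩
    simp only [h.conv, Set.mem_ofPred_eq]
  · intro S T
    ext ⟨a, b⟩
    simp only [Set.mem_ofPred_eq]
    constructor
    · intro h1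
      induction a using Quotient.inductionOn with
      | h s =>
        induction b using Quotient.inductionOn with
        | h t =>
          exact ⟨Quotient.mk _ (Tm.wit S T s t), hw S T _ _ h1⟩
    · rintro ⟨y, h1, h2⟩
      rw [h.comp]
      exact ⟨evq y, h1, h2⟩

theorem mono {m : ℕ} {D : Type u} {θ : Set (Atom m) → Set (D × D)} (h : IsWeakRep m D θ)
    {S T : Set (Atom m)} (hST : S ⊆ T) : θ S ⊆ θ T := by
  have h1 := h.inter S T
  rw [Set.inter_eq_left.2 hST] at h1
  rw [h1]
  exact Set.inter_subset_right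

theorem wrel {m : ℕ} {D : Type} {θ : Set (Atom m) → Set (D × D)} (h : IsWeakRep m D θ) :
    WRel m D (fun S x y => (x, y) ∈ θ S) where
  full x y := by rw [h.one]; trivial
  zero x y := by rw [h.zero]; exact id
  inter S T x y h1 h2 := by rw [h.inter]; exact ⟨h1, h2⟩
  mono S T x y hST h1 := mono h hST h1
  symm S x y h1 := by
    have h2 := h.conv S
    have h3 : conv S = S := rfl
    rw [h3] at h2
    show (y, x) ∈ θ S
    rw [h2]
    exact h1
  ident x y := by rw [h.ident]; rfl
  comp S T x z := by rw [← comp_eq, h.comp]; rfl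

theorem cc_of_weak {m : ℕ} (hm : 3 ≤ m) (h : WeaklyRepresentable.{u} m) : CC m := by
  obtain ⟨D, hD, θ, hθ⟩ := h
  by_cases h8 : 8 ≤ m
  · obtain ⟨E, hE, θ', hθ'⟩ := lower hθ
    have hne : (θ' {some 0}).Nonempty := by
      rw [Set.nonempty_iff_ne_empty]
      intro h
      rw [← hθ'.zero] at h
      exact Set.singleton_ne_empty _ (hθ'.inj h)
    obtain ⟨⟨x, y⟩, hxy⟩ := hne
    exact cc_of_wrel h8 (wrel hθ') hxy
  · by_cases h6 : m = 6
    · subst h6
      exfalso
      refine SixNotWeaklyRep.result.{u} ⟨D, hD, θ, hθ.inj, hθ.zero, hθ.one, hθ.inter, hθ.ident,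
        hθ.conv, fun S T => ?_⟩
      exact hθ.comp S T
    · exact cc_small (by omega)

theorem rep_of_cc {m : ℕ} (hm : 3 ≤ m) (h : CC m) : Representable.{u} m := by
  obtain ⟨G, hG⟩ := h
  have hC : Cod G := hG
  haveI : NeZero m := ⟨by omega⟩
  refine ⟨ULift.{u} (Fin m × Fin m), ⟨⟨(0, 0)⟩⟩,
    fun S => {p | lam G p.1.down p.2.down ∈ S}, ?_⟩
  refine ⟨⟨?_, ?_, ?_, ?_, ?_, ?_, ?_⟩, ?_, ?_⟩
  · intro S T hST
    ext a
    obtain ⟨x, y, rfl⟩ := lam_surj hC hm a
    have h1 : ((ULift.up x, ULift.up y) : ULift.{u} (Fin m × Fin m) × ULift.{u} (Fin m × Fin m)) ∈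
        {p : ULift.{u} (Fin m × Fin m) × ULift.{u} (Fin m × Fin m) |
          lam G p.1.down p.2.down ∈ S} ↔ (ULift.up x, ULift.up y) ∈
        {p : ULift.{u} (Fin m × Fin m) × ULift.{u} (Fin m × Fin m) |
          lam G p.1.down p.2.down ∈ T} := by
      have h2 : {p : ULift.{u} (Fin m × Fin m) × ULift.{u} (Fin m × Fin m) |
          lam G p.1.down p.2.down ∈ S} = {p | lam G p.1.down p.2.down ∈ T} := hST
      rw [h2]
    exact h1
  · ext p; simp
  · ext p; simp
  · intro S T; ext p; simp
  · ext ⟨a, b⟩
    simp only [Set.mem_singleton_iff, Set.mem_ofPred_eq, lam_none hC]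
    exact ULift.down_injective.eq_iff
  · intro S
    ext ⟨a, b⟩
    simp only [Set.mem_ofPred_eq, conv]
    rw [lam_symm hC]
  · intro S T
    ext ⟨a, b⟩
    simp only [Set.mem_ofPred_eq, comp, ac_iff, lam_comp hC hm]
    constructor
    · rintro ⟨s, hs, t, ht, z, rfl, rfl⟩
      exact ⟨⟨z⟩, hs, ht⟩
    · rintro ⟨z, hs, ht⟩
      exact ⟨_, hs, _, ht, z.down, rfl, rfl⟩
  · intro S T; ext p; simp
  · intro S; ext p; simp

theorem weak_of_rep {m : ℕ} (h : Representable.{u} m) : WeaklyRepresentable.{u} m := by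
  obtain ⟨D, hD, θ, hθ⟩ := h
  exact ⟨D, hD, θ, hθ.toIsWeakRep⟩

end Proof

/-- **The weakly representable Lyndon algebras.** Let `m ≥ 3`.
(1) `L(m,0)` is weakly representable if and only if there is an affine plane of order `m`.
(2) `L(m,0)` is weakly representable if and only if it is representable.
(3) If `m ≡ 1, 2 (mod 4)` and `m` is not a sum of two squares, then `L(m,0)` has no weak
representation over any set. -/
theorem result :
    (∀ m : ℕ, 3 ≤ m →
      (WeaklyRepresentable.{u} m ↔ ∃ (P : Type) (L : Set (Set P)), IsAffinePlane m P L)) ∧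
    (∀ m : ℕ, 3 ≤ m → (WeaklyRepresentable.{u} m ↔ Representable.{u} m)) ∧
    (∀ m : ℕ, 3 ≤ m → m % 4 = 1 ∨ m % 4 = 2 → (¬ ∃ a b : ℕ, m = a ^ 2 + b ^ 2) →
      ¬ WeaklyRepresentable.{u} m) := by
  refine ⟨fun m hm => ?_, fun m hm => ?_, fun m hm h4 hab h => ?_⟩
  · rw [plane_iff' (by omega)]
    exact ⟨cc_of_weak hm, fun h => weak_of_rep (rep_of_cc hm h)⟩
  · exact ⟨fun h => rep_of_cc hm (cc_of_weak hm h), weak_of_rep⟩
  · exact hab (Pool.Agent.Y942.LY.br_cc (by omega) h4 (cc_of_weak hm h))

end Pool.Agent.Results.MP_24331d_lc.AffinePlaneCriterion
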